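import Mathlib
import Pool.Agent.H430R2.Maillet
import Pool.Agent.H361R2.GBridge

set_option autoImplicit false

/-!
# MP_70e905_nt: every integer is a difference of bounded multiples of primes

Q1 (Maillet) asks whether every even `N ≥ 2` is a difference `p - q` of two primes.  We prove that
there is an absolute constant `C` such that every integer `N ≥ 1` can be written, in infinitely many
ways, as `a p - b q = N` with primes `p, q` and coefficients `1 ≤ a, b ≤ C` (case `M = 1` below);
and, for every `M`, with `M + 1` distinct primes `P 0, …, P M` any two of which represent `N` in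
this way, the constant `C` depending only on `M`, not on `N`.
-/

namespace Pool.Agent.Results.MP_70e905_nt.BoundedMultiples

open Finset

theorem result : ∀ M : ℕ, ∃ C : ℕ, ∀ N : ℕ, 1 ≤ N →
    ∃ a b : Fin (M + 1) → Fin (M + 1) → ℕ,
      (∀ i j, i < j → 1 ≤ a i j ∧ a i j ≤ C ∧ 1 ≤ b i j ∧ b i j ≤ C) ∧
      {P : Fin (M + 1) → ℕ | (∀ i, (P i).Prime) ∧ Function.Injective P ∧
        ∀ i j, i < j → a i j * P i = b i j * P j + N}.Infinite := by
  intro M
  obtain ⟨k, _, hMT⟩ := Pool.Agent.H361R2.mtz_exists (M + 1)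
  obtain ⟨C, hC⟩ := Pool.Agent.H430R2.Maillet.forms k
  refine ⟨C, fun N hN => ?_⟩
  obtain ⟨A, B, a, b, hA, _, hinj, hadm, hbd, hid⟩ := hC N hN
  obtain ⟨S, hS, hinf⟩ := hMT A (fun i => (B i : ℤ)) hA hinj hadm
  obtain ⟨S', hS'S, hS'⟩ := Finset.exists_subset_card_eq hS
  set e := S'.orderEmbOfFin hS' with he
  have heS : ∀ t, e t ∈ S := fun t => hS'S (Finset.orderEmbOfFin_mem S' hS' t)
  refine ⟨fun i j => a (e i) (e j), fun i j => b (e i) (e j),
    fun i j hij => hbd _ _ (e.strictMono hij), ?_⟩
  have hT := hinf.sdiff (Set.finite_le_nat N)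
  set φ : ℕ → Fin (M + 1) → ℕ := fun n t => A (e t) * n + B (e t) with hφ
  have hφinj : Set.InjOn φ ({n : ℕ | ∀ i, (∃ p : ℕ, p.Prime ∧ (A i * n + B i : ℤ) = p) ↔ i ∈ S} \
      {n | n ≤ N}) := by
    intro n _ n' _ h
    have h0 := congrFun h 0
    simp only [hφ, Nat.add_right_cancel_iff] at h0
    exact Nat.eq_of_mul_eq_mul_left (hA _) h0
  apply (hT.image hφinj).mono
  rintro _ ⟨n, ⟨hn, hnN⟩, rfl⟩
  simp only [Set.mem_setOf_eq, not_le] at hn hnN
  have hprime : ∀ t, (φ n t).Prime := by
    intro t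
    obtain ⟨p, hp, hpe⟩ := (hn (e t)).2 (heS t)
    have : φ n t = p := by
      simp only [hφ]
      exact_mod_cast hpe
    rw [this]
    exact hp
  have hrel : ∀ i j, i < j → a (e i) (e j) * φ n i = b (e i) (e j) * φ n j + N :=
    fun i j hij => hid _ _ (e.strictMono hij) n
  have hbig : ∀ t, N < φ n t := by
    intro t
    have h1 := hA (e t)
    have h2 : n ≤ A (e t) * n := Nat.le_mul_of_pos_left _ h1
    simp only [hφ]
    omega
  have hne : ∀ i j, i < j → φ n i ≠ φ n j := by
    intro i j hij heq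
    have h1 := hrel i j hij
    rw [heq] at h1
    have h2 : φ n j ∣ N := by
      have h3 : φ n j ∣ b (e i) (e j) * φ n j + N := by
        rw [← h1]; exact dvd_mul_left _ _
      exact (Nat.dvd_add_right (dvd_mul_left _ _)).1 h3
    have := Nat.le_of_dvd hN h2
    have := hbig j
    omega
  refine ⟨hprime, ?_, hrel⟩
  intro i j hij
  rcases lt_trichotomy i j with h | h | h
  · exact absurd hij (hne i j h)
  · exact h
  · exact absurd hij.symm (hne j i h)

end Pool.Agent.Results.MP_70e905_nt.BoundedMultiples
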