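import Pool.Agent.H505R4.DiffMain
import Pool.Agent.H505R4.Obstruct

set_option autoImplicit false

namespace Pool.Agent.Results.MP_70e905_nt.EvenRoughDifferences

open Classical in
/-- Part 1: for every `ε > 0` there are `η > 0` and `X₀` such that for every set `S` of natural
numbers (for instance of primes), every `X ≥ X₀` and every multiple `h ≤ X ^ η` of `24` at least
`X ^ (1 / 2 - ε)` integers `1 ≤ n ≤ X` are such that all prime factors of `n` and of `n + h` are
larger than `X ^ η` and the number of prime factors of `n (n + h)` belonging to `S`, counted with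
multiplicity, is even.

Part 2: for an even `h` not divisible by `24` this fails for some `S`: for a suitable set `S` the
number of prime factors of `n (n + h)` in `S` is odd whenever `n (n + h)` is prime to `6`. -/
theorem result :
    (∀ ε : ℝ, 0 < ε → ∃ η : ℝ, 0 < η ∧ ∃ X₀ : ℕ, ∀ (S : Set ℕ) (h X : ℕ), X₀ ≤ X → 1 ≤ h →
      24 ∣ h → (h : ℝ) ≤ (X : ℝ) ^ η →
      (X : ℝ) ^ (1 / 2 - ε) ≤ (({n : ℕ | 1 ≤ n ∧ n ≤ X ∧
        (∀ p : ℕ, p.Prime → p ∣ n * (n + h) → (X : ℝ) ^ η < p) ∧
        Even ((n * (n + h)).primeFactorsList.countP (fun p => decide (p ∈ S)))} :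
          Set ℕ).ncard : ℝ)) ∧
    (∀ h : ℕ, Even h → ¬ 24 ∣ h → ∃ S : Set ℕ, ∀ n : ℕ, 1 ≤ n → Nat.Coprime (n * (n + h)) 6 →
      Odd ((n * (n + h)).primeFactorsList.countP (fun p => decide (p ∈ S)))) := by
  refine ⟨fun ε hε => ?_, fun h he h24 => Pool.Agent.H505R4.obstruction h he h24⟩
  obtain ⟨η, hη, X₀, H⟩ := Pool.Agent.H505R4.main_pairs ε hε
  refine ⟨η, hη, X₀, fun S h X hX h1 h24 hhX => ?_⟩
  obtain ⟨k, rfl⟩ := h24
  have hk : 1 ≤ k := by omega
  have hkX : (k : ℝ) ≤ (X : ℝ) ^ η := by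
    refine le_trans ?_ hhX
    have : k ≤ 24 * k := by omega
    exact_mod_cast this
  exact H (Pool.Agent.H505R4.cnt S) (Pool.Agent.H505R4.cnt_mul S) k X hX hk hkX

end Pool.Agent.Results.MP_70e905_nt.EvenRoughDifferences
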