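import Mathlib
import Pool.Agent.H95R2.BG.GapSets

/-! For every even `N > 0` one of `N, 2N, ..., 120N` is a gap between consecutive primes, at least `x^(1-ε)`
times up to `x` for arbitrarily large `x`. -/

theorem Pool.Agent.Results.MP_70e905_nt.GapMultiples.result :
    ∀ N : ℕ, 0 < N → Even N → ∃ k : ℕ, 1 ≤ k ∧ k ≤ 120 ∧ ∀ ε : ℝ, 0 < ε → ∃ᶠ x : ℝ in Filter.atTop,
      x ^ (1 - ε) ≤ (Set.ncard {n : ℕ | (Nat.nth Nat.Prime n : ℝ) ≤ x ∧
        Nat.nth Nat.Prime (n + 1) - Nat.nth Nat.Prime n = k * N} : ℝ) := by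
  rintro N hN ⟨M, rfl⟩
  obtain ⟨k, hk1, hk2, h⟩ := Pool.Agent.H95R2.BG.multiple_gap M (by omega)
  refine ⟨k, hk1, hk2, fun ε hε => ?_⟩
  have hset : ∀ x : ℝ, Pool.Agent.H95R2.BG.gapSet ((k : ℤ) * (2 * M)) x = {n : ℕ | (Nat.nth Nat.Prime n : ℝ) ≤ x ∧
      Nat.nth Nat.Prime (n + 1) - Nat.nth Nat.Prime n = k * (M + M)} := by
    intro x
    ext n
    have hlt : Nat.nth Nat.Prime n < Nat.nth Nat.Prime (n + 1) :=
      Nat.nth_strictMono Nat.infinite_setOfPred_prime (Nat.lt_succ_self n)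
    simp only [Pool.Agent.H95R2.BG.gapSet, Set.mem_ofPred_eq, and_congr_right_iff]
    intro _
    constructor
    · intro h1
      have h2 : (((Nat.nth Nat.Prime (n + 1) - Nat.nth Nat.Prime n : ℕ)) : ℤ) = ((k * (M + M) : ℕ) : ℤ) := by
        rw [Nat.cast_sub hlt.le, h1]
        push_cast
        ring
      exact_mod_cast h2
    · intro h1
      have h2 : (((Nat.nth Nat.Prime (n + 1) - Nat.nth Nat.Prime n : ℕ)) : ℤ) = ((k * (M + M) : ℕ) : ℤ) := by
        rw [h1]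
      rw [Nat.cast_sub hlt.le] at h2
      rw [h2]
      push_cast
      ring
  have := h ε hε
  simp only [hset] at this
  exact this
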