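import Pool.Agent.H661R4.RM.Final
import Pool.Agent.H661R4.RM.Pairs

open Finset

namespace Pool.Agent.Results.MP_70e905_nt.RoughPairResidues

/-- **No residue class modulo an odd number is forced on the number of prime factors of almost prime
pairs with a given even difference.** Let `h > 0` be even, `m > 1` odd and `ε > 0`. There are `R` and
`δ > 0` such that for all large `x` and every `c` there are at least `x ^ (1 - ε)` positive integers
`n ≤ x` such that `n (n + h)` is a product of at most `R` primes, all larger than `x ^ δ`, and the number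
of prime factors of `n (n + h)` (with multiplicity) is not congruent to `c` modulo `m`. (`h` is the
difference of the primes `n` and `n + h` iff this number is `2`.) -/
theorem result (h : ℕ) (hh : Even h) (h0 : 0 < h) (m : ℕ) (hm : 1 < m) (hodd : Odd m)
    (ε : ℝ) (hε : 0 < ε) :
    ∃ (R : ℕ) (δ : ℝ), 0 < δ ∧ ∃ x₀ : ℝ, ∀ x : ℝ, x₀ ≤ x → ∀ c : ℕ,
    x ^ (1 - ε) ≤ ({n : ℕ | 0 < n ∧ (n : ℝ) ≤ x ∧
      ArithmeticFunction.cardFactors (n * (n + h)) ≤ R ∧
      (∀ p : ℕ, p.Prime → p ∣ n * (n + h) → x ^ δ < p) ∧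
      ¬ ArithmeticFunction.cardFactors (n * (n + h)) ≡ c [MOD m]}.ncard : ℝ) :=
  Pool.Agent.H661R4.RM.pairs Pool.Agent.H661R4.RM.final h hh h0 m hm hodd ε hε

end Pool.Agent.Results.MP_70e905_nt.RoughPairResidues
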